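import Pool.Agent.helper47.SC.Spec

/-!
Row sc:DAT (MP_0015b7_an): the data of the construction.
-/

set_option autoImplicit false

open scoped Topology ContDiff
open Set Filter Metric MeasureTheory

namespace Pool.Agent.SC

theorem DAT (h1 : REC_stmt) (h2 : RPD_stmt) : DAT_stmt := by
  obtain ⟨σ, c, hσ, hc, hcone, hdense⟩ := h1
  have hbad := h2 σ c hσ hc
  refine ⟨σ, fun i => √(1 + 2 * (c i) ^ 2),
    {t | t ∈ closedBall (0 : C3) (1 / 16) ∧ ∀ i, ‖t.2 - (σ i).2‖ ≤ c i * ‖t.1 - (σ i).1‖}, ?_⟩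
  constructor
  · have e : {t : C3 | t ∈ closedBall (0 : C3) (1 / 16) ∧
        ∀ i, ‖t.2 - (σ i).2‖ ≤ c i * ‖t.1 - (σ i).1‖} =
        closedBall (0 : C3) (1 / 16) ∩ ⋂ i, {t : C3 | ‖t.2 - (σ i).2‖ ≤ c i * ‖t.1 - (σ i).1‖} := by
      ext t; simp
    rw [e]
    apply isClosed_closedBall.inter
    apply isClosed_iInter
    intro i
    exact isClosed_le (by fun_prop) (by fun_prop)
  · rintro t ⟨ht, -⟩
    rw [mem_closedBall, dist_zero_right] at ht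
    have a1 : ‖t.1‖ ≤ 1 / 16 := (norm_fst_le t).trans ht
    have a2 : ‖t.2.1‖ ≤ 1 / 16 := (norm_fst_le t.2).trans ((norm_snd_le t).trans ht)
    have a3 : ‖t.2.2‖ ≤ 1 / 16 := (norm_snd_le t.2).trans ((norm_snd_le t).trans ht)
    have b1 : ‖t.1‖ ^ 2 ≤ (1 / 16) ^ 2 := pow_le_pow_left₀ (norm_nonneg _) a1 2
    have b2 : ‖t.2.1‖ ^ 2 ≤ (1 / 16) ^ 2 := pow_le_pow_left₀ (norm_nonneg _) a2 2
    have b3 : ‖t.2.2‖ ^ 2 ≤ (1 / 16) ^ 2 := pow_le_pow_left₀ (norm_nonneg _) a3 2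
    unfold nsq
    linarith
  · intro i
    exact ⟨hσ i, fun j => hcone i j⟩
  · rintro t ⟨ht, ht2⟩
    exact hdense t ht ht2
  · intro i
    rw [Real.one_le_sqrt]
    have : 0 ≤ (c i) ^ 2 := sq_nonneg _
    linarith
  · rintro t ⟨-, ht2⟩ i
    have hc0 : 0 ≤ 1 + 2 * (c i) ^ 2 := by positivity
    rw [Real.sq_sqrt hc0]
    have h := ht2 i
    have b : ‖t.2 - (σ i).2‖ ^ 2 ≤ (c i * ‖t.1 - (σ i).1‖) ^ 2 :=
      pow_le_pow_left₀ (norm_nonneg _) h 2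
    have b1 : ‖(t - σ i).2.1‖ ^ 2 ≤ ‖t.2 - (σ i).2‖ ^ 2 :=
      pow_le_pow_left₀ (norm_nonneg _) (norm_fst_le (t.2 - (σ i).2)) 2
    have b2 : ‖(t - σ i).2.2‖ ^ 2 ≤ ‖t.2 - (σ i).2‖ ^ 2 :=
      pow_le_pow_left₀ (norm_nonneg _) (norm_snd_le (t.2 - (σ i).2)) 2
    have b3 : (t - σ i).1 = t.1 - (σ i).1 := rfl
    unfold nsq
    rw [b3]
    rw [mul_pow] at b
    linarith
  · rw [pos_iff_ne_zero]
    intro h0
    set Q := closedBall (0 : C3) (1 / 16) with hQ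
    have hsub : Q ⊆ {t : C3 | t ∈ closedBall (0 : C3) (1 / 16) ∧
        ∀ i, ‖t.2 - (σ i).2‖ ≤ c i * ‖t.1 - (σ i).1‖} ∪
        {t : C3 | t ∈ closedBall (0 : C3) (1 / 16) ∧
          ∃ i, c i * ‖t.1 - (σ i).1‖ < ‖t.2 - (σ i).2‖} := by
      intro t ht
      by_cases h : ∀ i, ‖t.2 - (σ i).2‖ ≤ c i * ‖t.1 - (σ i).1‖
      · exact Or.inl ⟨ht, h⟩
      · push Not at h
        exact Or.inr ⟨ht, h⟩
    have hle : volume Q ≤ volume Q / 2 := by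
      calc volume Q ≤ _ := measure_mono hsub
        _ ≤ _ := measure_union_le _ _
        _ ≤ 0 + volume Q / 2 := add_le_add h0.le hbad
        _ = volume Q / 2 := zero_add _
    have hpos : 0 < volume Q := measure_closedBall_pos volume 0 (by norm_num)
    have hfin : volume Q ≠ ⊤ := (isCompact_closedBall (0 : C3) (1 / 16)).measure_lt_top.ne
    exact absurd (ENNReal.half_lt_self hpos.ne' hfin) (not_lt.2 hle)

end Pool.Agent.SC
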