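import Pool.Agent.helper82.SC.SpecC

/-!
# sp: module `CRC`: the rectangle integrals of the limit vanish
-/

namespace Pool.Agent.helper82.SC

open Relation Filter Topology Complex MeasureTheory
open scoped Interval

/-- One side of the rectangle: Riemann sum of approximate values. -/
theorem RC_seg (hRS : RS_stmt) (φ : ℝ → ℂ) (g : ℕ → ℂ) (a b t ε M : ℝ) (K : ℕ) (ht : 0 ≤ t)
    (hε : 0 ≤ ε) (hab : a ≤ b) (hb1 : b - a ≤ 1)
    (hφ : ContinuousOn φ (Set.Icc a b)) (hM : ∀ x ∈ Set.Icc a b, ‖φ x‖ ≤ M)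
    (hosc : ∀ x ∈ Set.Icc a b, ∀ y ∈ Set.Icc a b, |x - y| ≤ t → ‖φ x - φ y‖ ≤ ε)
    (hK1 : K * t ≤ b - a) (hK2 : b - a ≤ K * t + t)
    (hg : ∀ k < K, ‖g k - φ (a + k * t)‖ ≤ 3 * ε) (hMt : M * t ≤ ε) :
    ‖(t : ℂ) * (∑ k ∈ Finset.range K, g k) - ∫ x in a..b, φ x‖ ≤ 5 * ε := by
  have hKt0 : (0 : ℝ) ≤ K * t := mul_nonneg (Nat.cast_nonneg K) ht
  have hM0 : 0 ≤ M := (norm_nonneg _).trans (hM a ⟨le_refl a, hab⟩)
  have h1 : ‖(t : ℂ) * (∑ k ∈ Finset.range K, g k) -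
      ∑ k ∈ Finset.range K, (t : ℂ) * φ (a + k * t)‖ ≤ 3 * ε := by
    rw [Finset.mul_sum, ← Finset.sum_sub_distrib]
    have h : ∀ k ∈ Finset.range K, ‖(t : ℂ) * g k - (t : ℂ) * φ (a + k * t)‖ ≤ t * (3 * ε) := by
      intro k hk
      rw [← mul_sub, norm_mul, Complex.norm_real, Real.norm_of_nonneg ht]
      exact mul_le_mul_of_nonneg_left (hg k (Finset.mem_range.1 hk)) ht
    refine (norm_sum_le_of_le _ h).trans ?_
    rw [Finset.sum_const, Finset.card_range, nsmul_eq_mul]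
    nlinarith
  have hsub : Set.Icc a (a + K * t) ⊆ Set.Icc a b := Set.Icc_subset_Icc_right (by linarith)
  have h2 := hRS φ a t ε K ht hε (hφ.mono hsub) fun x hx y hy hxy =>
    hosc x (hsub hx) y (hsub hy) hxy
  have h2' : K * t * ε ≤ ε := by nlinarith
  have hsub2 : Set.Icc (a + K * t) b ⊆ Set.Icc a b := Set.Icc_subset_Icc_left (by linarith)
  have i1 : IntervalIntegrable φ volume a (a + K * t) :=
    (hφ.mono hsub).intervalIntegrable_of_Icc (by linarith)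
  have i2 : IntervalIntegrable φ volume (a + K * t) b :=
    (hφ.mono hsub2).intervalIntegrable_of_Icc (by linarith)
  have h3 := intervalIntegral.integral_add_adjacent_intervals i1 i2
  have h4 : ‖∫ x in (a + K * t)..b, φ x‖ ≤ M * |b - (a + K * t)| := by
    apply intervalIntegral.norm_integral_le_of_norm_le_const
    intro x hx
    rw [Set.uIoc_of_le (by linarith)] at hx
    exact hM x ⟨by linarith [hx.1], hx.2⟩
  have h5 : M * |b - (a + K * t)| ≤ ε := by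
    rw [abs_of_nonneg (by linarith)]
    refine le_trans ?_ hMt
    exact mul_le_mul_of_nonneg_left (by linarith) hM0
  rw [← h3]
  have e : (t : ℂ) * (∑ k ∈ Finset.range K, g k) -
      ((∫ x in a..(a + K * t), φ x) + ∫ x in (a + K * t)..b, φ x) =
      ((t : ℂ) * (∑ k ∈ Finset.range K, g k) - ∑ k ∈ Finset.range K, (t : ℂ) * φ (a + k * t)) +
      ((∑ k ∈ Finset.range K, (t : ℂ) * φ (a + k * t)) - ∫ x in a..(a + K * t), φ x) -
      ∫ x in (a + K * t)..b, φ x := by ring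
  rw [e]
  calc _ ≤ ‖((t : ℂ) * (∑ k ∈ Finset.range K, g k) -
        ∑ k ∈ Finset.range K, (t : ℂ) * φ (a + k * t)) +
      ((∑ k ∈ Finset.range K, (t : ℂ) * φ (a + k * t)) - ∫ x in a..(a + K * t), φ x)‖ +
      ‖∫ x in (a + K * t)..b, φ x‖ := norm_sub_le _ _
    _ ≤ (3 * ε + ε) + ε := by
        refine add_le_add ((norm_add_le _ _).trans (add_le_add h1 (h2.trans h2'))) (h4.trans h5)
    _ = 5 * ε := by ring

theorem norm_tau : ‖tau‖ = 1 := by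
  have h : ‖tau‖ ^ 2 = 1 := by
    rw [← Complex.normSq_eq_norm_sq, Complex.normSq_apply, tau]
    have h3 : Real.sqrt 3 * Real.sqrt 3 = 3 := Real.mul_self_sqrt (by norm_num)
    show (-1 / 2 : ℝ) * (-1 / 2) + Real.sqrt 3 / 2 * (Real.sqrt 3 / 2) = 1
    nlinarith
  have h0 := norm_nonneg tau
  nlinarith

/-- The complex combination of three real functions. -/
theorem norm_comb_le (u v : Fin 3 → ℝ) (ε : ℝ) (h : ∀ j, |u j - v j| ≤ ε) :
    ‖(∑ j : Fin 3, tau ^ (j : ℕ) * (u j : ℂ)) - ∑ j : Fin 3, tau ^ (j : ℕ) * (v j : ℂ)‖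
      ≤ 3 * ε := by
  rw [← Finset.sum_sub_distrib]
  have h' : ∀ j ∈ (Finset.univ : Finset (Fin 3)),
      ‖tau ^ (j : ℕ) * (u j : ℂ) - tau ^ (j : ℕ) * (v j : ℂ)‖ ≤ ε := by
    intro j _
    rw [← mul_sub, norm_mul, norm_pow, norm_tau, one_pow, one_mul, ← Complex.ofReal_sub,
      Complex.norm_real]
    exact h j
  refine (norm_sum_le_of_le _ h').trans ?_
  rw [Finset.sum_const, Finset.card_univ, Fintype.card_fin, nsmul_eq_mul]
  norm_num

theorem pd_hor (i j : ℤ) : pd (hor i j) = ⟨(i : ℝ) + 1 / 2 + j / 2, Real.sqrt 3 / 2 * j⟩ := by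
  apply Complex.ext
  · simp [pd, hor, ps, S]
    ring
  · simp [pd, hor, ps, S]

theorem norm_le_re_im (z : ℂ) (a b : ℝ) (h1 : |z.re| ≤ a) (h2 : |z.im| ≤ b) : ‖z‖ ≤ a + b :=
  (Complex.norm_le_abs_re_add_abs_im z).trans (add_le_add h1 h2)

theorem RC_close (n : ℕ) (i j : ℤ) (u v a b : ℝ) (h1 : |(i : ℝ) + 1 / 2 + j / 2 - n * u| ≤ a)
    (h2 : |Real.sqrt 3 / 2 * j - n * v| ≤ b) (hab : a + b ≤ 8) :
    ‖pd (hor i j) - n * ((u : ℂ) + v * I)‖ ≤ 8 := by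
  refine (norm_le_re_im _ a b ?_ ?_).trans hab
  · rw [pd_hor]
    simpa using h1
  · rw [pd_hor]
    simpa using h2

theorem mem_Qs_mk (u v : ℝ) (h1 : 0 ≤ u) (h2 : u ≤ 1) (h3 : 0 ≤ v) (h4 : v ≤ 1) :
    ((u : ℂ) + v * I) ∈ Qs := by
  refine ⟨?_, ?_, ?_, ?_⟩ <;> simp [h1, h2, h3, h4]

theorem isCompact_Qs : IsCompact Qs := by
  have h : Qs = (fun p : ℝ × ℝ => (p.1 : ℂ) + p.2 * I) '' (Set.Icc 0 1 ×ˢ Set.Icc 0 1) := by
    ext w
    constructor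
    · rintro ⟨h1, h2, h3, h4⟩
      exact ⟨(w.re, w.im), ⟨⟨h1, h2⟩, h3, h4⟩, Complex.re_add_im w⟩
    · rintro ⟨⟨u, v⟩, ⟨⟨h1, h2⟩, h3, h4⟩, rfl⟩
      exact mem_Qs_mk u v h1 h2 h3 h4
  rw [h]
  apply (isCompact_Icc.prod isCompact_Icc).image
  fun_prop

theorem FF_continuousOn (h : Fin 3 → ℂ → ℝ) (hc : ∀ j, ContinuousOn (h j) Qs) :
    ContinuousOn (FF h) Qs := by
  unfold FF
  apply continuousOn_finsetSum
  intro j _
  exact continuousOn_const.mul (Complex.continuous_ofReal.comp_continuousOn (hc j))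

/-- Sites near the strips are in the square. -/
theorem mem_strip (n : ℕ) (x₀ x₁ y₀ y₁ : ℝ) (i₀ j : ℤ) (L K : ℕ) (hy0 : 0 < y₀)
    (hn1 : 10 ≤ x₀ * n) (hn2 : 10 ≤ (1 - x₁) * n) (hn3 : 10 ≤ (1 - y₁) * n)
    (hj1 : n * y₀ ≤ Real.sqrt 3 / 2 * j) (hj2 : Real.sqrt 3 / 2 * j ≤ n * y₀ + 1)
    (hi1 : n * x₀ ≤ i₀ + j / 2) (hi2 : (i₀ : ℝ) + j / 2 ≤ n * x₀ + 1)
    (hK1 : K * Real.sqrt 3 ≤ n * (y₁ - y₀)) (hL1 : L ≤ n * (x₁ - x₀)) (i r : ℤ) (h1 : j ≤ r)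
    (h2 : r ≤ j + 2 * K) (h3 : 2 * i₀ + j - 4 ≤ 2 * i + r)
    (h4 : 2 * i + r ≤ 2 * i₀ + j + 2 * L + 6) : (i, r) ∈ Usq n := by
  have hs : 0 < Real.sqrt 3 := Real.sqrt_pos.2 (by norm_num)
  have hss : Real.sqrt 3 * Real.sqrt 3 = 3 := Real.mul_self_sqrt (by norm_num)
  have hn0 : (0 : ℝ) ≤ n := Nat.cast_nonneg n
  have hj0 : (0 : ℤ) ≤ j := by
    by_contra hc
    push Not at hc
    have hc' : (j : ℝ) < 0 := by exact_mod_cast hc
    have : 0 ≤ n * y₀ := mul_nonneg hn0 hy0.le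
    nlinarith
  have h2' : (r : ℝ) ≤ j + 2 * K := by exact_mod_cast h2
  have h3' : (2 : ℝ) * i₀ + j - 4 ≤ 2 * i + r := by exact_mod_cast h3
  have h4' : (2 : ℝ) * i + r ≤ 2 * i₀ + j + 2 * L + 6 := by exact_mod_cast h4
  rw [mem_Usq]
  refine ⟨hj0.trans h1, ?_, ?_, ?_⟩
  · obtain ⟨m, rfl⟩ := Int.eq_ofNat_of_zero_le (hj0.trans h1)
    have hm : m ≤ top n := by
      rw [top_spec]
      have hm1 : Real.sqrt 3 / 2 * m ≤ n := by
        have : ((m : ℤ) : ℝ) = m := by simp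
        rw [this] at h2'
        nlinarith
      have hm0 : (0 : ℝ) ≤ Real.sqrt 3 / 2 * m := by positivity
      have hm2 : (Real.sqrt 3 / 2 * m) * (Real.sqrt 3 / 2 * m) ≤ n * n :=
        mul_self_le_mul_self hm0 hm1
      have hm3 : (3 : ℝ) * m ^ 2 ≤ 4 * n ^ 2 := by nlinarith
      exact_mod_cast hm3
    show (m : ℤ) ≤ (top n : ℤ)
    exact_mod_cast hm
  · have : (0 : ℝ) ≤ 2 * i + r := by nlinarith
    exact_mod_cast this
  · have : (2 : ℝ) * i + r ≤ 2 * n := by nlinarith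
    exact_mod_cast this

theorem S_all (n : ℕ) (i r : ℤ) (b : Bool) (h1 : (i, r) ∈ Usq n) (h2 : (i + 1, r) ∈ Usq n)
    (h3 : (i, r + 1) ∈ Usq n) (h4 : (i + 1, r + 1) ∈ Usq n) : ∀ d, S ((i, r), b) d ∈ Usq n := by
  intro d
  cases b <;> fin_cases d <;> simp [S, h1, h2, h3, h4]

theorem RC (hCON : CON_stmt) (hRS : RS_stmt) : RC_stmt := by
  intro P 𝒰 h hF hL x₀ x₁ y₀ y₁ hx0 hx01 hx1 hy0 hy01 hy1
  obtain ⟨hle, hcont, hlim⟩ := hL
  have hFF : ContinuousOn (FF h) Qs := FF_continuousOn h hcont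
  obtain ⟨M, hM⟩ := isCompact_Qs.exists_bound_of_continuousOn hFF
  have hUC : UniformContinuousOn (FF h) Qs := isCompact_Qs.uniformContinuousOn_of_continuous hFF
  rw [Metric.uniformContinuousOn_iff_le] at hUC
  suffices H : ∀ ε : ℝ, 0 < ε → ‖(∫ x in x₀..x₁, FF h (x + y₀ * I)) -
      (∫ x in x₀..x₁, FF h (x + y₁ * I)) + I * (∫ y in y₀..y₁, FF h (x₁ + y * I)) -
      I * (∫ y in y₀..y₁, FF h (x₀ + y * I))‖ ≤ 32 * ε by
    rw [← norm_le_zero_iff]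
    refine le_of_forall_pos_le_add fun ε hε => ?_
    have := H (ε / 32) (by positivity)
    linarith
  intro ε hε
  obtain ⟨δ₁, hδ₁, huc⟩ := hUC ε hε
  obtain ⟨δ₂, hδ₂, N, hN⟩ := hF.eq (ε / 3) (by positivity)
  have ev : ∀ c d : ℝ, 0 < d → ∀ᶠ n : ℕ in atTop, c ≤ d * (n : ℝ) := fun c d hd =>
    (tendsto_natCast_atTop_atTop.const_mul_atTop hd).eventually_ge_atTop c
  have ev2 : ∀ᶠ n : ℕ in atTop, ((N ≤ n ∧ 1 ≤ n) ∧ (10 ≤ x₀ * (n : ℝ) ∧ 10 ≤ (1 - x₁) * (n : ℝ) ∧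
      10 ≤ (1 - y₁) * (n : ℝ))) ∧ (3 ≤ δ₂ * (n : ℝ) ∧ 2 ≤ δ₁ * (n : ℝ) ∧ 2 * M ≤ ε * (n : ℝ)) :=
    (((eventually_ge_atTop N).and (eventually_ge_atTop 1)).and
      ((ev _ _ hx0).and ((ev _ _ (by linarith)).and (ev _ _ (by linarith))))).and
      ((ev _ _ hδ₂).and ((ev _ _ hδ₁).and (ev _ _ hε)))
  obtain ⟨n, hn1, ⟨⟨hnN, hn1'⟩, hnx0, hnx1, hny1⟩, hnδ₂, hnδ₁, hnM⟩ :=
    ((hlim ε hε).and (hle ev2)).exists
  have hn0 : (0 : ℝ) < n := by exact_mod_cast hn1'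
  have hs : 0 < Real.sqrt 3 := Real.sqrt_pos.2 (by norm_num)
  have hss : Real.sqrt 3 * Real.sqrt 3 = 3 := Real.mul_self_sqrt (by norm_num)
  have hs2 : Real.sqrt 3 ≤ 2 := by nlinarith
  -- parameters
  obtain ⟨j, hj1, hj2⟩ : ∃ j : ℤ, n * y₀ ≤ Real.sqrt 3 / 2 * j ∧
      Real.sqrt 3 / 2 * j ≤ n * y₀ + 1 := by
    refine ⟨⌈n * y₀ / (Real.sqrt 3 / 2)⌉, ?_, ?_⟩
    · have := Int.le_ceil (n * y₀ / (Real.sqrt 3 / 2))
      rw [div_le_iff₀ (by positivity)] at this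
      linarith
    · have := (Int.ceil_lt_add_one (n * y₀ / (Real.sqrt 3 / 2))).le
      rw [div_add_one (by positivity), le_div_iff₀ (by positivity)] at this
      linarith
  obtain ⟨i₀, hi1, hi2⟩ : ∃ i₀ : ℤ, n * x₀ ≤ (i₀ : ℝ) + j / 2 ∧ (i₀ : ℝ) + j / 2 ≤ n * x₀ + 1 := by
    refine ⟨⌈n * x₀ - j / 2⌉, ?_, ?_⟩
    · have := Int.le_ceil (n * x₀ - (j : ℝ) / 2)
      linarith
    · have := (Int.ceil_lt_add_one (n * x₀ - (j : ℝ) / 2)).le
      linarith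
  obtain ⟨K, hK1, hK2⟩ : ∃ K : ℕ, K * Real.sqrt 3 ≤ n * (y₁ - y₀) ∧
      n * (y₁ - y₀) ≤ K * Real.sqrt 3 + Real.sqrt 3 := by
    have h0 : 0 ≤ n * (y₁ - y₀) / Real.sqrt 3 :=
      div_nonneg (mul_nonneg hn0.le (by linarith)) hs.le
    refine ⟨⌊n * (y₁ - y₀) / Real.sqrt 3⌋₊, ?_, ?_⟩
    · have := Nat.floor_le h0
      rwa [le_div_iff₀ hs] at this
    · have := (Nat.lt_floor_add_one (n * (y₁ - y₀) / Real.sqrt 3)).le
      rw [div_le_iff₀ hs] at this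
      linarith
  obtain ⟨L, hL1, hL2⟩ : ∃ L : ℕ, (L : ℝ) ≤ n * (x₁ - x₀) ∧ n * (x₁ - x₀) ≤ L + 1 := by
    have h0 : 0 ≤ n * (x₁ - x₀) := mul_nonneg hn0.le (by linarith)
    exact ⟨⌊n * (x₁ - x₀)⌋₊, Nat.floor_le h0, (Nat.lt_floor_add_one _).le⟩
  have hmem := mem_strip n x₀ x₁ y₀ y₁ i₀ j L K hy0 hnx0 hnx1 hny1 hj1 hj2 hi1 hi2 hK1 hL1
  set G : Dart → ℂ := fun x => ∑ m : Fin 3, tau ^ (m : ℕ) * (P n m x : ℂ) with hG
  have hcon := hCON G i₀ L K j ε hε.le ?_ ?_ ?_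
  rotate_left
  · intro x
    simp only [hG, hF.sym n hn1']
  · intro k i b b' hk hi
    have hloc := hF.loc n hn1' ((i, j + 2 * k + (if b' then 1 else 0)), b) ?_
    · simp only [hG, Finset.mul_sum, ← mul_assoc, ← pow_add]
      exact hloc
    · have hk' : (k : ℤ) + 1 ≤ K := by exact_mod_cast hk
      cases b'
      · simp only [Bool.false_eq_true, if_false] at hi ⊢
        apply S_all <;> apply hmem <;> omega
      · simp only [if_true] at hi ⊢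
        apply S_all <;> apply hmem <;> omega
  · intro k x y hk hx2 hy2 hx3 hx4 hy3 hy4 hxy
    have hk' : (k : ℤ) + 1 ≤ K := by exact_mod_cast hk
    have hU : ∀ x : Dart, (x.1.1.2 = j + 2 * k ∨ x.1.1.2 = j + 2 * k + 1) →
        i₀ - k - 1 ≤ x.1.1.1 → x.1.1.1 ≤ i₀ - k + L → FUn n x.1 := by
      rintro ⟨⟨⟨i, r⟩, b⟩, d⟩ h1 h2 h3
      simp only at h1 h2 h3
      refine ⟨0, S_all n i r b ?_ ?_ ?_ ?_ 0⟩ <;> apply hmem <;> omega
    have := norm_comb_le (fun m => P n m x) (fun m => P n m y) (ε / 3)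
      (hN n hnN x y (hU x hx2 hx3 hx4) (hU y hy2 hy3 hy4) (hxy.trans (by linarith)))
    simp only [hG]
    linarith
  have hM0 : 0 ≤ M := (norm_nonneg _).trans (hM _ (mem_Qs_mk x₀ y₀ hx0.le (by linarith) hy0.le
    (by linarith)))
  have hK1' : K * (Real.sqrt 3 / n) ≤ y₁ - y₀ := by
    rw [← mul_div_assoc, div_le_iff₀ hn0]
    linarith
  have hK2' : y₁ - y₀ ≤ K * (Real.sqrt 3 / n) + Real.sqrt 3 / n := by
    rw [← mul_div_assoc, ← add_div, le_div_iff₀ hn0]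
    linarith
  have hL1' : L * (1 / (n : ℝ)) ≤ x₁ - x₀ := by
    rw [← mul_div_assoc, div_le_iff₀ hn0]
    linarith
  have hL2' : x₁ - x₀ ≤ L * (1 / (n : ℝ)) + 1 / n := by
    rw [← mul_div_assoc, ← add_div, le_div_iff₀ hn0]
    linarith
  have hMt1 : M * (1 / (n : ℝ)) ≤ ε := by
    rw [← mul_div_assoc, div_le_iff₀ hn0]
    linarith
  have hMt2 : M * (Real.sqrt 3 / n) ≤ ε := by
    rw [← mul_div_assoc, div_le_iff₀ hn0]
    nlinarith
  have ht1 : (1 : ℝ) / n ≤ δ₁ := by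
    rw [div_le_iff₀ hn0]
    linarith
  have ht2 : Real.sqrt 3 / n ≤ δ₁ := by
    rw [div_le_iff₀ hn0]
    linarith
  have hval : ∀ (i r : ℤ) (u v : ℝ), (i, r) ∈ Usq n → 0 ≤ u → u ≤ 1 → 0 ≤ v → v ≤ 1 →
      |(i : ℝ) + 1 / 2 + r / 2 - n * u| ≤ 4 → |Real.sqrt 3 / 2 * r - n * v| ≤ 4 →
      ‖G (hor i r) - FF h (u + v * I)‖ ≤ 3 * ε := by
    intro i r u v hir hu0 hu1 hv0 hv1 h1 h2
    exact norm_comb_le _ _ ε fun m => hn1 m (hor i r) _ ⟨0, by simpa [hor, S] using hir⟩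
      (mem_Qs_mk u v hu0 hu1 hv0 hv1) (RC_close n i r u v 4 4 h1 h2 (by norm_num))
  have hhor : ∀ (r i₁ : ℤ) (v : ℝ), 0 ≤ v → v ≤ 1 → (∀ k : ℕ, k < L → (i₁ + k, r) ∈ Usq n) →
      |Real.sqrt 3 / 2 * r - n * v| ≤ 4 → n * x₀ ≤ (i₁ : ℝ) + r / 2 →
      (i₁ : ℝ) + r / 2 ≤ n * x₀ + 1 →
      ‖((1 / (n : ℝ) : ℝ) : ℂ) * (∑ k ∈ Finset.range L, G (hor (i₁ + k) r)) -
        ∫ x in x₀..x₁, FF h (x + v * I)‖ ≤ 5 * ε := by
    intro r i₁ v hv0 hv1 hU hr h1 h2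
    have hQ : ∀ x ∈ Set.Icc x₀ x₁, ((x : ℂ) + v * I) ∈ Qs := fun x hx =>
      mem_Qs_mk x v (by linarith [hx.1]) (by linarith [hx.2]) hv0 hv1
    refine RC_seg hRS (fun x => FF h (x + v * I)) (fun k => G (hor (i₁ + k) r)) x₀ x₁ (1 / n) ε M L
      (by positivity) hε.le hx01 (by linarith) ?_ (fun x hx => hM _ (hQ x hx)) ?_ hL1' hL2' ?_ hMt1
    · exact hFF.comp (by fun_prop) hQ
    · intro x hx y hy hxy
      have := huc _ (hQ x hx) _ (hQ y hy) (by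
        rw [dist_eq_norm, show ((x : ℂ) + v * I) - (y + v * I) = ((x - y : ℝ) : ℂ) by
          push_cast; ring, Complex.norm_real]
        exact hxy.trans ht1)
      rwa [dist_eq_norm] at this
    · intro k hk
      have hk' : (k : ℝ) ≤ L := by exact_mod_cast hk.le
      have hkn : (n : ℝ) * (k * (1 / n)) = k := by field_simp
      have hkL : (k : ℝ) * (1 / n) ≤ L * (1 / n) :=
        mul_le_mul_of_nonneg_right hk' (by positivity)
      have hk0 : (0 : ℝ) ≤ k * (1 / n) := by positivity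
      refine hval (i₁ + k) r (x₀ + k * (1 / n)) v (hU k hk) (by linarith) (by linarith) hv0 hv1 ?_ hr
      rw [mul_add, hkn]
      push_cast
      rw [abs_le]
      constructor <;> linarith
  have hver : ∀ (i₁ : ℤ) (u : ℝ), 0 ≤ u → u ≤ 1 →
      (∀ k : ℕ, k < K → (i₁ - k, j + 2 * k) ∈ Usq n) →
      |(i₁ : ℝ) + 1 / 2 + j / 2 - n * u| ≤ 4 →
      ‖((Real.sqrt 3 / (n : ℝ) : ℝ) : ℂ) * (∑ k ∈ Finset.range K, G (hor (i₁ - k) (j + 2 * k))) -
        ∫ y in y₀..y₁, FF h (u + y * I)‖ ≤ 5 * ε := by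
    intro i₁ u hu0 hu1 hU hi
    have hQ : ∀ y ∈ Set.Icc y₀ y₁, ((u : ℂ) + y * I) ∈ Qs := fun y hy =>
      mem_Qs_mk u y hu0 hu1 (by linarith [hy.1]) (by linarith [hy.2])
    refine RC_seg hRS (fun y => FF h (u + y * I)) (fun k => G (hor (i₁ - k) (j + 2 * k))) y₀ y₁
      (Real.sqrt 3 / n) ε M K (by positivity) hε.le hy01 (by linarith) ?_
      (fun x hx => hM _ (hQ x hx)) ?_ hK1' hK2' ?_ hMt2
    · exact hFF.comp (by fun_prop) hQ
    · intro x hx y hy hxy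
      have := huc _ (hQ x hx) _ (hQ y hy) (by
        rw [dist_eq_norm, show ((u : ℂ) + x * I) - (u + y * I) = ((x - y : ℝ) : ℂ) * I by
          push_cast; ring, norm_mul, Complex.norm_I, mul_one, Complex.norm_real]
        exact hxy.trans ht2)
      rwa [dist_eq_norm] at this
    · intro k hk
      have hk' : (k : ℝ) ≤ K := by exact_mod_cast hk.le
      have hkn : (n : ℝ) * (k * (Real.sqrt 3 / n)) = k * Real.sqrt 3 := by field_simp
      have hkL : (k : ℝ) * (Real.sqrt 3 / n) ≤ K * (Real.sqrt 3 / n) :=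
        mul_le_mul_of_nonneg_right hk' (by positivity)
      have hk0 : (0 : ℝ) ≤ k * (Real.sqrt 3 / n) := by positivity
      refine hval (i₁ - k) (j + 2 * k) u (y₀ + k * (Real.sqrt 3 / n)) (hU k hk) hu0 hu1
        (by linarith) (by linarith) ?_ ?_
      · push_cast
        rw [abs_le] at hi ⊢
        constructor <;> linarith [hi.1, hi.2]
      · rw [mul_add, hkn]
        push_cast
        rw [abs_le]
        constructor <;> linarith
  have hA := hhor j i₀ y₀ hy0.le (by linarith) (fun k hk => by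
    have : (k : ℤ) < L := by exact_mod_cast hk
    apply hmem <;> omega) (by rw [abs_le]; constructor <;> linarith) hi1 hi2
  have hB := hhor (j + 2 * K) (i₀ - K) y₁ (by linarith) (by linarith) (fun k hk => by
    have : (k : ℤ) < L := by exact_mod_cast hk
    apply hmem <;> omega) (by push_cast; rw [abs_le]; constructor <;> linarith)
    (by push_cast; linarith) (by push_cast; linarith)
  have hC := hver (i₀ + L) x₁ (by linarith) (by linarith) (fun k hk => by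
    have : (k : ℤ) < K := by exact_mod_cast hk
    apply hmem <;> omega) (by push_cast; rw [abs_le]; constructor <;> linarith)
  have hD := hver i₀ x₀ (by linarith) (by linarith) (fun k hk => by
    have : (k : ℤ) < K := by exact_mod_cast hk
    apply hmem <;> omega) (by rw [abs_le]; constructor <;> linarith)
  have hCe : (∑ k ∈ Finset.range K, G (hor (i₀ - k + L) (j + 2 * k))) =
      ∑ k ∈ Finset.range K, G (hor (i₀ + L - k) (j + 2 * k)) := by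
    apply Finset.sum_congr rfl
    intro k _
    rw [show i₀ - (k : ℤ) + L = i₀ + L - k by ring]
  rw [Finset.sum_sub_distrib, hCe] at hcon
  set A := ∑ k ∈ Finset.range L, G (hor (i₀ + k) j)
  set B := ∑ k ∈ Finset.range L, G (hor (i₀ - K + k) (j + 2 * K))
  set C := ∑ k ∈ Finset.range K, G (hor (i₀ + L - k) (j + 2 * k))
  set D := ∑ k ∈ Finset.range K, G (hor (i₀ - k) (j + 2 * k))
  set iA := ∫ x in x₀..x₁, FF h (x + y₀ * I)
  set iB := ∫ x in x₀..x₁, FF h (x + y₁ * I)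
  set iC := ∫ y in y₀..y₁, FF h (x₁ + y * I)
  set iD := ∫ y in y₀..y₁, FF h (x₀ + y * I)
  have hKn : (K : ℝ) ≤ n := by
    have h1 : (1 : ℝ) ≤ Real.sqrt 3 := by
      rw [Real.one_le_sqrt]
      norm_num
    have h2 : (0 : ℝ) ≤ K := Nat.cast_nonneg K
    nlinarith
  have hE : ‖((1 / (n : ℝ) : ℝ) : ℂ) * (A - B + I * (Real.sqrt 3 : ℂ) * (C - D))‖ ≤ 12 * ε := by
    rw [norm_mul, Complex.norm_real, Real.norm_of_nonneg (by positivity), one_div,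
      inv_mul_le_iff₀ hn0]
    refine hcon.trans ?_
    nlinarith
  have e : iA - iB + I * iC - I * iD =
      ((1 / (n : ℝ) : ℝ) : ℂ) * (A - B + I * (Real.sqrt 3 : ℂ) * (C - D)) -
      (((1 / (n : ℝ) : ℝ) : ℂ) * A - iA) + (((1 / (n : ℝ) : ℝ) : ℂ) * B - iB) -
      I * (((Real.sqrt 3 / (n : ℝ) : ℝ) : ℂ) * C - iC) +
      I * (((Real.sqrt 3 / (n : ℝ) : ℝ) : ℂ) * D - iD) := by
    push_cast
    ring
  rw [e]
  have hI : ∀ z : ℂ, ‖I * z‖ = ‖z‖ := fun z => by rw [norm_mul, Complex.norm_I, one_mul]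
  refine (norm_add_le _ _).trans ?_
  rw [hI]
  refine (add_le_add ((norm_sub_le _ _).trans (add_le_add ((norm_add_le _ _).trans
    (add_le_add ((norm_sub_le _ _).trans (add_le_add hE hA)) hB)) ((hI _).le.trans hC))) hD).trans ?_
  linarith

end Pool.Agent.helper82.SC
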