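import Pool.Agent.helper82.SC.SpecA

/-!
# sp: module `CSUM`: the three probabilities add up to one
-/

namespace Pool.Agent.helper82.SC

theorem SUM (hEX : EX_stmt) (hFC : FC_stmt) : SUM_stmt := by
  classical
  intro D z hz
  obtain ⟨hfin, hcard⟩ := hFC D z hz
  let A : Fin 3 → Set (Dart → ZMod 2) := fun j => {ψ | ψ ∈ D.Conf z ∧ D.Jn ψ z j}
  have hA : ∀ j, (A j).Finite := fun j => hfin.subset fun ψ h => h.1
  have hU : D.Conf z = (A 0 ∪ A 1) ∪ A 2 := by
    ext ψ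
    constructor
    · intro h
      obtain ⟨j, hj, -⟩ := hEX D z hz ψ h
      fin_cases j
      · exact Or.inl (Or.inl ⟨h, hj⟩)
      · exact Or.inl (Or.inr ⟨h, hj⟩)
      · exact Or.inr ⟨h, hj⟩
    · rintro ((h | h) | h) <;> exact h.1
  have hD : ∀ i j, i ≠ j → Disjoint (A i) (A j) := by
    intro i j hij
    rw [Set.disjoint_left]
    intro ψ h1 h2
    obtain ⟨k, -, hk, -⟩ := hEX D z hz ψ h1.1
    exact hij ((hk i h1.2).trans (hk j h2.2).symm)
  have h01 : (A 0 ∪ A 1).ncard = (A 0).ncard + (A 1).ncard :=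
    Set.ncard_union_eq (hD 0 1 (by decide)) (hA 0) (hA 1)
  have h012 : ((A 0 ∪ A 1) ∪ A 2).ncard = (A 0 ∪ A 1).ncard + (A 2).ncard :=
    Set.ncard_union_eq (Set.disjoint_union_left.2 ⟨hD 0 2 (by decide), hD 1 2 (by decide)⟩)
      ((hA 0).union (hA 1)) (hA 2)
  rw [← hU, hcard, h01] at h012
  have h2 : (2 : ℝ) ^ D.U.card ≠ 0 := by positivity
  have hP : ∀ j, D.P j z = ((A j).ncard : ℝ) / 2 ^ D.U.card := fun j => rfl
  rw [Fin.sum_univ_three, hP, hP, hP, ← add_div, ← add_div, div_eq_one_iff_eq h2]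
  exact_mod_cast h012.symm

end Pool.Agent.helper82.SC
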