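import Pool.Agent.helper83.SC.Stmt

/-!
Module TB of the SC project: test bodies (port of helper51/Sch/TB to all dimensions).
-/

open scoped Pointwise ContDiff
open MeasureTheory Set Filter Topology

namespace Pool.Agent.helper83.SC

/-- the Euclidean norm on the product -/
noncomputable def TB_N {m : ℕ} (y : E m) (s : ℝ) : ℝ := Real.sqrt (‖y‖ ^ 2 + s ^ 2)

/-- the set with support function `T` -/
def TB_body {m : ℕ} (T : E m → ℝ → ℝ) : Set (E m × ℝ) :=
  {x | ∀ y s, inner ℝ x.1 y + x.2 * s ≤ T y s}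

theorem TB_N_nonneg {m : ℕ} (y : E m) (s : ℝ) : 0 ≤ TB_N y s := Real.sqrt_nonneg _

theorem TB_N_sq {m : ℕ} (y : E m) (s : ℝ) : TB_N y s ^ 2 = ‖y‖ ^ 2 + s ^ 2 :=
  Real.sq_sqrt (by positivity)

theorem TB_inner_sq {m : ℕ} (a y : E m) : (inner ℝ a y : ℝ) ^ 2 ≤ ‖a‖ ^ 2 * ‖y‖ ^ 2 := by
  have h := abs_real_inner_le_norm a y
  have h2 : |(inner ℝ a y : ℝ)| ^ 2 ≤ (‖a‖ * ‖y‖) ^ 2 := pow_le_pow_left₀ (abs_nonneg _) h 2
  rw [sq_abs] at h2
  nlinarith [h2]

theorem TB_cs {m : ℕ} (y y' : E m) (s s' : ℝ) :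
    inner ℝ y y' + s * s' ≤ TB_N y s * TB_N y' s' := by
  unfold TB_N
  rw [← Real.sqrt_mul (by positivity)]
  refine (le_abs_self _).trans (Real.abs_le_sqrt ?_)
  have h1 : inner ℝ y y' + s * s' ≤ |inner ℝ y y' + s * s'| := le_abs_self _
  have h2 := abs_real_inner_le_norm y y'
  have h3 : |inner ℝ y y' + s * s'| ≤ ‖y‖ * ‖y'‖ + |s| * |s'| := by
    refine (abs_add_le _ _).trans ?_
    rw [abs_mul]
    linarith
  have h4 : (inner ℝ y y' + s * s') ^ 2 ≤ (‖y‖ * ‖y'‖ + |s| * |s'|) ^ 2 := by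
    rw [← sq_abs]
    exact pow_le_pow_left₀ (abs_nonneg _) h3 2
  have h5 : (‖y‖ * ‖y'‖ + |s| * |s'|) ^ 2 ≤ (‖y‖ ^ 2 + |s| ^ 2) * (‖y'‖ ^ 2 + |s'| ^ 2) := by
    nlinarith [sq_nonneg (‖y‖ * |s'| - |s| * ‖y'‖)]
  rw [sq_abs, sq_abs] at h5
  exact h4.trans h5

theorem TB_body_Body {m : ℕ} {T : E m → ℝ → ℝ} (hT : ∀ y s, 0 ≤ T y s) : Body (TB_body T) := by
  refine ⟨?_, ?_, ⟨(0, 0), fun y s => by simpa using hT y s⟩⟩
  · have hcl : IsClosed (TB_body T) := by
      have : TB_body T = ⋂ y : E m, ⋂ s : ℝ, {x : E m × ℝ | inner ℝ x.1 y + x.2 * s ≤ T y s} := by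
        ext x
        simp [TB_body]
      rw [this]
      refine isClosed_iInter fun y => isClosed_iInter fun s => isClosed_le ?_ continuous_const
      fun_prop
    refine Metric.isCompact_of_isClosed_isBounded hcl ?_
    refine (Metric.isBounded_iff_subset_closedBall ((0 : E m), (0 : ℝ))).2
      ⟨(∑ i, (T (e i) 0 + T (-e i) 0)) + T 0 1 + T 0 (-1), ?_⟩
    intro x hx
    have hi : ∀ i : Fin m, |x.1 i| ≤ T (e i) 0 + T (-e i) 0 := by
      intro i
      have h1 := hx (e i) 0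
      have h2 := hx (-e i) 0
      have k1 := hT (e i) 0
      have k2 := hT (-e i) 0
      have h3 : inner ℝ x.1 (e i) = x.1 i := by
        simp [e, EuclideanSpace.inner_single_right]
      rw [inner_neg_right] at h2
      rw [h3] at h1 h2
      exact abs_le.2 ⟨by linarith, by linarith⟩
    have hn : ‖x.1‖ ≤ ∑ i, (T (e i) 0 + T (-e i) 0) := by
      have h1 : ‖x.1‖ ≤ ∑ i, |x.1 i| := by
        rw [EuclideanSpace.norm_eq]
        refine Real.sqrt_le_iff.2 ⟨Finset.sum_nonneg fun i _ => abs_nonneg _, ?_⟩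
        have := Finset.sum_sq_le_sq_sum_of_nonneg (s := Finset.univ) (f := fun i => |x.1 i|)
          (fun i _ => abs_nonneg _)
        simpa [Real.norm_eq_abs] using this
      exact h1.trans (Finset.sum_le_sum fun i _ => hi i)
    have h5 := hx 0 1
    have h6 := hx 0 (-1)
    have k5 := hT 0 1
    have k6 := hT 0 (-1)
    have k7 : 0 ≤ ∑ i, (T (e i) 0 + T (-e i) 0) :=
      Finset.sum_nonneg fun i _ => add_nonneg (hT _ _) (hT _ _)
    simp only [inner_zero_right, zero_add, mul_one] at h5 h6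
    rw [Metric.mem_closedBall, dist_eq_norm]
    simp only [Prod.norm_def, Prod.fst_sub, Prod.snd_sub, sub_zero, Real.norm_eq_abs]
    refine max_le (by linarith) (abs_le.2 ⟨?_, ?_⟩) <;> linarith
  · intro x hx z hz a b ha hb hab y s
    have h1 := mul_le_mul_of_nonneg_left (hx y s) ha
    have h2 := mul_le_mul_of_nonneg_left (hz y s) hb
    have h3 : a * T y s + b * T y s = T y s := by rw [← add_mul, hab, one_mul]
    simp only [Prod.fst_add, Prod.snd_add, Prod.smul_fst, Prod.smul_snd, smul_eq_mul,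
      inner_add_left, real_inner_smul_left] at h1 h2 ⊢
    linarith

theorem TB_H_eq {m : ℕ} {T : E m → ℝ → ℝ} (y : E m) (s : ℝ)
    (h : ∃ x ∈ TB_body T, inner ℝ x.1 y + x.2 * s = T y s) : H (TB_body T) y s = T y s := by
  obtain ⟨x, hx, hxe⟩ := h
  refine IsGreatest.csSup_eq ⟨⟨x, hx, hxe⟩, ?_⟩
  rintro _ ⟨z, hz, rfl⟩
  exact hz y s

theorem TB_ball_point {m : ℕ} {R : ℝ} (hR : 0 ≤ R) (y : E m) (s : ℝ) :
    ∃ x : E m × ℝ, (∀ y' s', inner ℝ x.1 y' + x.2 * s' ≤ R * TB_N y' s') ∧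
      inner ℝ x.1 y + x.2 * s = R * TB_N y s := by
  have hN := TB_N_nonneg y s
  rcases hN.eq_or_lt with h0 | h0
  · refine ⟨(0, 0), fun y' s' => ?_, ?_⟩
    · simpa using mul_nonneg hR (TB_N_nonneg y' s')
    · rw [← h0]; simp
  · refine ⟨((R / TB_N y s) • y, R * s / TB_N y s), fun y' s' => ?_, ?_⟩
    · have h1 := mul_le_mul_of_nonneg_left (TB_cs y y' s s') hR
      have h2 : inner ℝ ((R / TB_N y s) • y) y' + R * s / TB_N y s * s'
          = R * (inner ℝ y y' + s * s') / TB_N y s := by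
        rw [real_inner_smul_left]; ring
      simp only
      rw [h2, div_le_iff₀ h0]
      linarith
    · have h2 : inner ℝ ((R / TB_N y s) • y) y + R * s / TB_N y s * s
          = R * (TB_N y s ^ 2) / TB_N y s := by
        rw [TB_N_sq, real_inner_smul_left, real_inner_self_eq_norm_sq]; ring
      simp only
      rw [h2]
      field_simp

theorem TB_tilde_nonneg {m : ℕ} {φ : E m → ℝ} (hφ : Test φ) (y : E m) (s : ℝ) :
    0 ≤ tilde φ y s := by
  unfold tilde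
  split_ifs with h
  · exact mul_nonneg h.le (hφ.2.2 _)
  · exact le_rfl

/-- the strong convexity of `sqrt (1 + |y|^2)` -/
theorem TB_strong {m : ℕ} (a y : E m) :
    ‖y - a‖ ^ 2 ≤
      2 * TB_N a 1 ^ 2 * TB_N y 1 * (TB_N y 1 - (inner ℝ a y + 1) / TB_N a 1) := by
  have hA : 0 < TB_N a 1 := Real.sqrt_pos.2 (by positivity)
  have hY : 0 < TB_N y 1 := Real.sqrt_pos.2 (by positivity)
  have hcs := TB_cs a y 1 1
  have hA2 := TB_N_sq a 1
  have hY2 := TB_N_sq y 1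
  have hin := TB_inner_sq a y
  have hsub : ‖y - a‖ ^ 2 = ‖y‖ ^ 2 - 2 * inner ℝ a y + ‖a‖ ^ 2 := by
    rw [norm_sub_sq_real, real_inner_comm]
  rw [hsub]
  set A := TB_N a 1
  set Y := TB_N y 1
  set p : ℝ := inner ℝ a y
  have e1 : 2 * A ^ 2 * Y * (Y - (p + 1) / A) = 2 * (A * Y) * (A * Y - (p + 1)) := by
    field_simp
  rw [e1]
  have e2 : (A * Y) ^ 2 = (‖a‖ ^ 2 + 1 ^ 2) * (‖y‖ ^ 2 + 1 ^ 2) := by
    rw [mul_pow, hA2, hY2]
  have e3 : 0 ≤ A * Y - (p + 1) := by linarith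
  nlinarith [sq_nonneg (A * Y - (p + 1)), mul_nonneg hA.le hY.le]

theorem TB_data {m : ℕ} {φ : E m → ℝ} (h1φ : ContDiff ℝ ∞ φ) (h2φ : HasCompactSupport φ) :
    ∃ L M ρ : ℝ, 0 ≤ L ∧ 0 ≤ M ∧ 0 ≤ ρ ∧ ∀ a : E m, ∃ g : E m,
    (∀ y, |φ y - φ a - inner ℝ g (y - a)| ≤ M * ‖y - a‖ ^ 2) ∧
    (∀ y, |φ y - φ a - inner ℝ g (y - a)| ≤ 2 * L * ‖y - a‖) ∧ |inner ℝ g a| ≤ L * ‖a‖ ∧
    ((g = 0 ∧ φ a = 0) ∨ ‖a‖ ≤ ρ) := by
  obtain ⟨L, hL⟩ := ContDiff.lipschitzWith_of_hasCompactSupport h2φ h1φ (by simp)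
  obtain ⟨M, hM⟩ := ContDiff.lipschitzWith_of_hasCompactSupport (h2φ.fderiv ℝ)
    (h1φ.fderiv_right (m := 1) (by norm_cast)) (by simp)
  obtain ⟨ρ, hρ⟩ := h2φ.isCompact.isBounded.exists_norm_le
  refine ⟨L, M, max ρ 0, L.2, M.2, le_max_right _ _, fun a => ?_⟩
  refine ⟨(InnerProductSpace.toDual ℝ (E m)).symm (fderiv ℝ φ a), ?_⟩
  have hg : ∀ v : E m, inner ℝ ((InnerProductSpace.toDual ℝ (E m)).symm (fderiv ℝ φ a)) v
      = fderiv ℝ φ a v := fun v => InnerProductSpace.toDual_symm_apply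
  simp only [hg]
  have hnorm : ‖fderiv ℝ φ a‖ ≤ L := norm_fderiv_le_of_lipschitz ℝ hL
  have hlin : ∀ v, |fderiv ℝ φ a v| ≤ L * ‖v‖ := fun v =>
    ((fderiv ℝ φ a).le_opNorm v).trans (mul_le_mul_of_nonneg_right hnorm (norm_nonneg _))
  have hdiff : Differentiable ℝ φ := h1φ.differentiable (by simp)
  refine ⟨fun y => ?_, fun y => ?_, hlin a, ?_⟩
  · have h2 : ∀ x ∈ segment ℝ a y, ‖fderiv ℝ φ x - fderiv ℝ φ a‖ ≤ M * ‖y - a‖ := by
      intro x hx
      have h3 := hM.dist_le_mul x a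
      rw [dist_eq_norm, dist_eq_norm] at h3
      refine h3.trans (mul_le_mul_of_nonneg_left ?_ M.2)
      obtain ⟨α, β, hα, hβ, hαβ, rfl⟩ := hx
      have h4 : α • a + β • y - a = β • (y - a) := by
        have : α = 1 - β := by linarith
        subst this
        module
      rw [h4, norm_smul, Real.norm_of_nonneg hβ]
      nlinarith [norm_nonneg (y - a)]
    have h5 := Convex.norm_image_sub_le_of_norm_fderiv_le' (𝕜 := ℝ) (fun x _ => hdiff x) h2
      (convex_segment a y) (left_mem_segment ℝ a y) (right_mem_segment ℝ a y)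
    rw [Real.norm_eq_abs] at h5
    rw [sq, ← mul_assoc]
    exact h5
  · have h3 := hL.dist_le_mul y a
    rw [dist_eq_norm, dist_eq_norm, Real.norm_eq_abs] at h3
    have h4 := hlin (y - a)
    calc |φ y - φ a - fderiv ℝ φ a (y - a)| ≤ |φ y - φ a| + |fderiv ℝ φ a (y - a)| := abs_sub _ _
      _ ≤ 2 * L * ‖y - a‖ := by linarith
  · by_cases ha : a ∈ tsupport φ
    · right
      exact (hρ a ha).trans (le_max_left _ _)
    · left
      have h6 : fderiv ℝ φ a = 0 := by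
        by_contra h7
        exact ha (support_fderiv_subset ℝ h7)
      refine ⟨?_, image_eq_zero_of_notMem_tsupport ha⟩
      rw [h6]
      simp

theorem TB_subgrad {m : ℕ} {φ : E m → ℝ} (hφ : Test φ) :
    ∃ R : ℝ, 0 ≤ R ∧ (∃ C, ∀ y, φ y ≤ C) ∧
    ∀ a : E m, ∃ (p : E m) (c : ℝ), 0 ≤ c ∧ inner ℝ p a + c = R * TB_N a 1 + φ a ∧
      ∀ y, inner ℝ p y + c ≤ R * TB_N y 1 + φ y := by
  obtain ⟨L, M, ρ, hL, hM, hρ, hdata⟩ := TB_data hφ.1 hφ.2.1
  refine ⟨2 * (1 + 2 * ρ ^ 2) * ((1 + 2 * ρ) * M + 4 * L) + (1 + 2 * ρ ^ 2) * (L * ρ),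
    by positivity, ?_, fun a => ?_⟩
  · obtain ⟨C, hC⟩ := hφ.2.1.exists_bound_of_continuous hφ.1.continuous
    exact ⟨C, fun y => (le_abs_self _).trans (hC y)⟩
  obtain ⟨g, h1, h2, h3, h4⟩ := hdata a
  set R := 2 * (1 + 2 * ρ ^ 2) * ((1 + 2 * ρ) * M + 4 * L) + (1 + 2 * ρ ^ 2) * (L * ρ) with hR
  have hR0 : 0 ≤ R := by positivity
  have hA1 : 1 ≤ TB_N a 1 := by
    unfold TB_N
    rw [Real.one_le_sqrt]
    nlinarith [sq_nonneg ‖a‖]
  have hA : 0 < TB_N a 1 := by linarith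
  have hA2 := TB_N_sq a 1
  have hna : ‖a‖ ≤ ρ → TB_N a 1 ^ 2 ≤ 1 + 2 * ρ ^ 2 := by
    intro h
    rw [hA2]
    have := pow_le_pow_left₀ (norm_nonneg a) h 2
    nlinarith [sq_nonneg ρ]
  refine ⟨(R / TB_N a 1) • a + g, R / TB_N a 1 + φ a - inner ℝ g a, ?_, ?_, ?_⟩
  · have hφa := hφ.2.2 a
    rcases h4 with ⟨hg, hφ0⟩ | h4
    · subst hg
      simp only [inner_zero_left]
      have : 0 ≤ R / TB_N a 1 := by positivity
      linarith
    · have k1 : inner ℝ g a ≤ L * ρ :=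
        (le_abs_self _).trans (h3.trans (mul_le_mul_of_nonneg_left h4 hL))
      have k2 : L * ρ ≤ R / TB_N a 1 := by
        rw [le_div_iff₀ hA]
        have k3 : TB_N a 1 ≤ 1 + 2 * ρ ^ 2 := by
          have := hna h4
          nlinarith
        have k4 : L * ρ * TB_N a 1 ≤ L * ρ * (1 + 2 * ρ ^ 2) :=
          mul_le_mul_of_nonneg_left k3 (by positivity)
        have k5 : 0 ≤ 2 * (1 + 2 * ρ ^ 2) * ((1 + 2 * ρ) * M + 4 * L) := by positivity
        rw [hR]
        linarith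
      linarith
  · rw [inner_add_left, real_inner_smul_left, real_inner_self_eq_norm_sq]
    have k : R * TB_N a 1 = R / TB_N a 1 * (‖a‖ ^ 2 + 1 ^ 2) := by
      rw [← hA2]; field_simp
    rw [k]
    ring
  · intro y
    have e : inner ℝ ((R / TB_N a 1) • a + g) y + (R / TB_N a 1 + φ a - inner ℝ g a)
        = R * ((inner ℝ a y + 1) / TB_N a 1) + (φ a + inner ℝ g (y - a)) := by
      rw [inner_add_left, real_inner_smul_left, inner_sub_right]; ring
    rw [e]
    have hst := TB_strong a y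
    have hY1 : 1 ≤ TB_N y 1 := by
      unfold TB_N
      rw [Real.one_le_sqrt]
      nlinarith [sq_nonneg ‖y‖]
    have hY : 0 < TB_N y 1 := by linarith
    set b := TB_N y 1 - (inner ℝ a y + 1) / TB_N a 1 with hb
    have hd0 := norm_nonneg (y - a)
    have hb0 : 0 ≤ b := by
      by_contra hlt
      push Not at hlt
      have : 2 * TB_N a 1 ^ 2 * TB_N y 1 * b < 0 := mul_neg_of_pos_of_neg (by positivity) hlt
      nlinarith [sq_nonneg ‖y - a‖]
    suffices hs : φ a + inner ℝ g (y - a) - φ y ≤ R * b by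
      have : R * b = R * TB_N y 1 - R * ((inner ℝ a y + 1) / TB_N a 1) := by rw [hb]; ring
      linarith
    rcases h4 with ⟨hg, hφ0⟩ | h4
    · subst hg
      rw [hφ0]
      have := hφ.2.2 y
      have : 0 ≤ R * b := mul_nonneg hR0 hb0
      simp only [inner_zero_left]
      linarith
    · set e := φ a + inner ℝ g (y - a) - φ y with he
      have e1 : e ≤ M * ‖y - a‖ ^ 2 := by
        have := neg_abs_le (φ y - φ a - inner ℝ g (y - a))
        have := h1 y
        linarith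
      have e2 : e ≤ 2 * L * ‖y - a‖ := by
        have := neg_abs_le (φ y - φ a - inner ℝ g (y - a))
        have := h2 y
        linarith
      rcases le_or_gt e 0 with he0 | he0
      · exact he0.trans (mul_nonneg hR0 hb0)
      have hYle : TB_N y 1 ≤ 1 + 2 * ρ + 2 * ‖y - a‖ := by
        have k5 : ‖y‖ ≤ ρ + ‖y - a‖ := by
          have := norm_add_le (y - a) a
          rw [sub_add_cancel] at this
          linarith
        unfold TB_N
        refine Real.sqrt_le_iff.2 ⟨by positivity, ?_⟩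
        have k7 : ‖y‖ ^ 2 ≤ (ρ + ‖y - a‖) ^ 2 := pow_le_pow_left₀ (norm_nonneg y) k5 2
        nlinarith
      have hAle := hna h4
      have q1 : e * (1 + 2 * ρ + 2 * ‖y - a‖) ≤ ‖y - a‖ ^ 2 * ((1 + 2 * ρ) * M + 4 * L) := by
        have r1 : e * (1 + 2 * ρ) ≤ M * ‖y - a‖ ^ 2 * (1 + 2 * ρ) :=
          mul_le_mul_of_nonneg_right e1 (by positivity)
        have r2 : e * (2 * ‖y - a‖) ≤ 2 * L * ‖y - a‖ * (2 * ‖y - a‖) :=
          mul_le_mul_of_nonneg_right e2 (by positivity)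
        nlinarith
      have q2 : 2 * TB_N a 1 ^ 2 * TB_N y 1 * e ≤ 2 * (1 + 2 * ρ ^ 2) * (‖y - a‖ ^ 2 *
          ((1 + 2 * ρ) * M + 4 * L)) := by
        have r1 : TB_N y 1 * e ≤ (1 + 2 * ρ + 2 * ‖y - a‖) * e :=
          mul_le_mul_of_nonneg_right hYle he0.le
        have r2 : TB_N a 1 ^ 2 * (TB_N y 1 * e) ≤
            (1 + 2 * ρ ^ 2) * ((1 + 2 * ρ + 2 * ‖y - a‖) * e) :=
          mul_le_mul hAle r1 (by positivity) (by positivity)
        have r3 : (1 + 2 * ρ ^ 2) * ((1 + 2 * ρ + 2 * ‖y - a‖) * e) ≤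
            (1 + 2 * ρ ^ 2) * (‖y - a‖ ^ 2 * ((1 + 2 * ρ) * M + 4 * L)) :=
          mul_le_mul_of_nonneg_left (by linarith) (by positivity)
        linarith
      have q3 : R * ‖y - a‖ ^ 2 ≤ R * (2 * TB_N a 1 ^ 2 * TB_N y 1 * b) :=
        mul_le_mul_of_nonneg_left hst hR0
      have q4 : 2 * (1 + 2 * ρ ^ 2) * (‖y - a‖ ^ 2 * ((1 + 2 * ρ) * M + 4 * L)) ≤
          R * ‖y - a‖ ^ 2 := by
        have : 0 ≤ (1 + 2 * ρ ^ 2) * (L * ρ) * ‖y - a‖ ^ 2 := by positivity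
        rw [hR]
        nlinarith
      have q5 : (2 * TB_N a 1 ^ 2 * TB_N y 1) * e ≤ (2 * TB_N a 1 ^ 2 * TB_N y 1) * (R * b) := by
        linarith
      exact le_of_mul_le_mul_left q5 (by positivity)

theorem exists_test_body_of : exists_test_body_stmt := by
  intro m φ hφ
  obtain ⟨R, hR, ⟨C, hC⟩, hsub⟩ := TB_subgrad hφ
  have hT1 : ∀ (y : E m) (s : ℝ), 0 ≤ R * TB_N y s := fun y s => mul_nonneg hR (TB_N_nonneg y s)
  have hT2 : ∀ (y : E m) (s : ℝ), 0 ≤ R * TB_N y s + tilde φ y s := fun y s =>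
    add_nonneg (hT1 y s) (TB_tilde_nonneg hφ y s)
  refine ⟨TB_body fun y s => R * TB_N y s, TB_body fun y s => R * TB_N y s + tilde φ y s,
    TB_body_Body hT1, TB_body_Body hT2, fun y s => ?_⟩
  rw [TB_H_eq (T := fun y s => R * TB_N y s) y s (TB_ball_point hR y s)]
  refine TB_H_eq (T := fun y s => R * TB_N y s + tilde φ y s) y s ?_
  rcases le_or_gt s 0 with hs | hs
  · obtain ⟨x, hx1, hx2⟩ := TB_ball_point hR y s
    refine ⟨x, fun y' s' => (hx1 y' s').trans ?_, ?_⟩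
    · have := TB_tilde_nonneg hφ y' s'
      simp only
      linarith
    · rw [hx2]
      simp [tilde, not_lt.2 hs]
  · obtain ⟨p, c, hc, he, hle⟩ := hsub (s⁻¹ • y)
    have hsc : ∀ (y' : E m) (s' : ℝ), 0 < s' →
        inner ℝ p y' + c * s' = s' * (inner ℝ p (s'⁻¹ • y') + c) := by
      intro y' s' hs'
      rw [real_inner_smul_right]
      field_simp
    have hN : ∀ (y' : E m) (s' : ℝ), 0 < s' → TB_N y' s' = s' * TB_N (s'⁻¹ • y') 1 := by
      intro y' s' hs'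
      unfold TB_N
      have h1 : ‖y'‖ ^ 2 + s' ^ 2 = s' ^ 2 * (‖s'⁻¹ • y'‖ ^ 2 + 1 ^ 2) := by
        rw [norm_smul, Real.norm_of_nonneg (by positivity)]
        field_simp
      rw [h1, Real.sqrt_mul (by positivity), Real.sqrt_sq hs'.le]
    have hpos : ∀ (y' : E m) (s' : ℝ), 0 < s' →
        inner ℝ p y' + c * s' ≤ R * TB_N y' s' + tilde φ y' s' := by
      intro y' s' hs'
      rw [hsc y' s' hs', hN y' s' hs', tilde, if_pos hs']
      have := mul_le_mul_of_nonneg_left (hle (s'⁻¹ • y')) hs'.le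
      linarith
    have hzero : ∀ y' : E m, inner ℝ p y' ≤ R * TB_N y' 0 := by
      intro y'
      refine le_of_forall_pos_le_add fun ε hε => ?_
      obtain ⟨s', hs', hs'2⟩ : ∃ s' > 0, s' * (R + |C|) ≤ ε := by
        refine ⟨ε / (R + |C| + 1), by positivity, ?_⟩
        rw [div_mul_eq_mul_div, div_le_iff₀ (by positivity)]
        nlinarith [abs_nonneg C]
      have k1 := hpos y' s' hs'
      have k2 : TB_N y' s' ≤ TB_N y' 0 + s' := by
        unfold TB_N
        refine Real.sqrt_le_iff.2 ⟨by positivity, ?_⟩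
        have := Real.sq_sqrt (show 0 ≤ ‖y'‖ ^ 2 + (0 : ℝ) ^ 2 by positivity)
        have := Real.sqrt_nonneg (‖y'‖ ^ 2 + (0 : ℝ) ^ 2)
        nlinarith
      have k3 : tilde φ y' s' ≤ s' * |C| := by
        rw [tilde, if_pos hs']
        exact mul_le_mul_of_nonneg_left ((hC _).trans (le_abs_self _)) hs'.le
      have k4 : 0 ≤ c * s' := by positivity
      have k5 := mul_le_mul_of_nonneg_left k2 hR
      linarith
    refine ⟨(p, c), fun y' s' => ?_, ?_⟩
    · rcases lt_or_ge 0 s' with hs' | hs'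
      · exact hpos y' s' hs'
      · have k1 := hzero y'
        have k2 : c * s' ≤ 0 := mul_nonpos_of_nonneg_of_nonpos hc hs'
        have k3 : TB_N y' 0 ≤ TB_N y' s' := by
          unfold TB_N
          exact Real.sqrt_le_sqrt (by nlinarith [sq_nonneg s'])
        have k4 := mul_le_mul_of_nonneg_left k3 hR
        have k5 := TB_tilde_nonneg hφ y' s'
        simp only
        linarith
    · simp only
      rw [hsc y s hs, he, hN y s hs, tilde, if_pos hs]
      ring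

end Pool.Agent.helper83.SC
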